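import Mathlib
import Pool.Agent.Results.MP_7564fc_nt.FewLongCycles
import Pool.Agent.Q21.DW.Cnt

/-!
# No long rational cycles of `x ^ 2 + c` for all `c` of random height

The height of a rational number is the maximum of `|numerator|` and denominator. For ALL rational
numbers `c` whose height is an integer given by the digits or the multiples of a random real number (in
the sense of `RandomReals (1 / 2)`) all rational periodic points of `x ^ 2 + c` have exact period at most
two; for every `s > 0` there is a bound `N` such that for `RandomReals s` there are at most `N` rational
preperiodic points.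
-/

set_option autoImplicit false

namespace Pool.Agent.Results.MP_7564fc_nt.RandomParameters

open FewLongCycles (f Long)

/-- the height of a rational number -/
def height (c : ℚ) : ℕ := max c.num.natAbs c.den

/-- For ALL rational numbers `c` of height `m` all rational periodic points of `x ^ 2 + c` have exact
period at most two. -/
def ShortCycles (m : ℕ) : Prop := ∀ c : ℚ, height c = m → ∀ x ∈ Function.periodicPts (f c),
  Function.minimalPeriod (f c) x ≤ 2

/-- **Theorem.** In the sense of `RandomReals (1 / 2)` (windows of digits in all bases, and integers near
the multiples `α v_k`, for random real numbers `α`, with Hausdorff dimensions and measures of the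
exceptional sets) for all the rational numbers `c` of height `m` all rational periodic points of
`x ^ 2 + c` have exact period at most two. -/
theorem result :
    Pool.Agent.Q21.DW.RandomReals (1 / 2) (fun (_ : Unit) (m : ℕ) => ShortCycles m) := by
  refine Pool.Agent.Q21.DW.randomReals_of (B := fun (_ : Unit) (m : ℕ) => ¬ ShortCycles m)
    (by norm_num) (by norm_num) (fun _ => ?_) (fun _ m _ h => not_not.1 h)
  refine Pool.Agent.Q21.DW.ps_of (fun X : ℕ => {c : ℚ | c.den ≤ X ∧ Long c}) height _ _ ?_ ?_
  · intro ε hε
    obtain ⟨C, hC⟩ := FewLongCycles.result.2.2.1 ε hε
    exact ⟨C, fun X _ => hC X⟩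
  · intro m X _ hmX hB
    unfold ShortCycles at hB
    push Not at hB
    obtain ⟨c, hc, x, hx, hlt⟩ := hB
    exact ⟨c, ⟨(le_max_right _ _).trans (hc.le.trans hmX), x, hx, hlt⟩, hc⟩

end Pool.Agent.Results.MP_7564fc_nt.RandomParameters
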